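import Pool.Agent.Helper62.KRK.Mono
import Pool.Agent.Helper62.KRK.RunQ
import Pool.Agent.Helper62.KRK.RunU

/-!
# King and rook against king on the quarter-infinite board: mate in 39

The board `⟨⊤, ⊤⟩` is the quarter-infinite board, `start` is the position WK a1, WR b2, BK c3 with
White to move, and `WinIn B N p` says that White can force checkmate within `N` moves.
-/

namespace Pool.Agent.Results.MP_b88367_co.LeastMoves

open Pool.Agent.Helper62.KRK

/-- On the quarter-infinite board White can force checkmate from the starting position, and the
least number of moves within which this is possible is 39. -/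
theorem result : IsLeast {N : ℕ | WinIn ⟨⊤, ⊤⟩ N start} 39 := by
  refine ⟨win39 le_top le_top, ?_⟩
  intro N hN
  by_contra h
  exact not_win38 (winIn_mono (by omega) hN)

end Pool.Agent.Results.MP_b88367_co.LeastMoves
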