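import Pool.Agent.Helper62.KRK.Mono
import Pool.Agent.Helper62.KRK.RunF
import Pool.Agent.Helper62.KRK.RunU

/-!
# King and rook against king: the boards with exits on which White wins

`⟨m, n⟩` is the board with `m` files and `n` ranks on which the Black king may leave the board
across the north and the east edge.
-/

namespace Pool.Agent.Results.MP_b88367_co.SmallestBoards

open Pool.Agent.Helper62.KRK

/-- On the board with `m` files and `n` ranks and with exits to the north and east, White can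
force checkmate from the starting position if and only if `m ≥ 9, n ≥ 11` or `m ≥ 11, n ≥ 9`. -/
theorem result : ∀ m n : ℕ, 3 ≤ m → 3 ≤ n →
    (Wins ⟨m, n⟩ start ↔ (9 ≤ m ∧ 11 ≤ n) ∨ (11 ≤ m ∧ 9 ≤ n)) := by
  intro m n hm hn
  constructor
  · intro hw
    have hmem : ∀ a b : ℕ, 3 ≤ a → 3 ≤ b → Board.Mem ⟨a, b⟩ start.bk := by
      intro a b ha hb
      refine ⟨by decide, by decide, ?_, ?_⟩
      · change ((3 : ℕ) : ℕ∞) ≤ (a : ℕ∞)
        exact_mod_cast ha
      · change ((3 : ℕ) : ℕ∞) ≤ (b : ℕ∞)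
        exact_mod_cast hb
    by_contra hc
    have h3 : m ≤ 8 ∨ n ≤ 8 ∨ (m ≤ 10 ∧ n ≤ 10) := by omega
    rcases h3 with h3 | h3 | ⟨h3, h4⟩
    · refine not_wins8 (wins_mono (B := ⟨m, n⟩) ?_ le_top hw (hmem m n hm hn))
      change (m : ℕ∞) ≤ ((8 : ℕ) : ℕ∞)
      exact_mod_cast h3
    · have hw' : Wins ⟨n, m⟩ start := wins_flip hw
      refine not_wins8 (wins_mono (B := ⟨n, m⟩) ?_ le_top hw' (hmem n m hn hm))
      change (n : ℕ∞) ≤ ((8 : ℕ) : ℕ∞)
      exact_mod_cast h3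
    · refine not_wins10 (wins_mono (B := ⟨m, n⟩) ?_ ?_ hw (hmem m n hm hn))
      · change (m : ℕ∞) ≤ ((10 : ℕ) : ℕ∞)
        exact_mod_cast h3
      · change (n : ℕ∞) ≤ ((10 : ℕ) : ℕ∞)
        exact_mod_cast h4
  · rintro (⟨h1, h2⟩ | ⟨h1, h2⟩)
    · apply wins_of_winIn (N := 39)
      apply win39
      · change ((9 : ℕ) : ℕ∞) ≤ (m : ℕ∞)
        exact_mod_cast h1
      · change ((11 : ℕ) : ℕ∞) ≤ (n : ℕ∞)
        exact_mod_cast h2
    · have hw : WinIn ⟨n, m⟩ 39 start := by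
        apply win39
        · change ((9 : ℕ) : ℕ∞) ≤ (n : ℕ∞)
          exact_mod_cast h2
        · change ((11 : ℕ) : ℕ∞) ≤ (m : ℕ∞)
          exact_mod_cast h1
      have hw' : WinIn ⟨m, n⟩ 39 start := winIn_flip hw
      exact wins_of_winIn hw'

end Pool.Agent.Results.MP_b88367_co.SmallestBoards
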